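import Mathlib
import Pool.Agent.Q278.DB.Fin
import Pool.Agent.Q278.DB.Par

/-!
# A weighted sum of the numbers `s_n = ∑ C(n,k)² C(2k,k) C(2(n-k),n-k)`

Q1: `∑_{n<p} (3n²+n) 16^{-n} s_n ≡ -4 p⁴ q_p(2) + 6 p⁵ q_p(2)² (mod p⁶)` for all primes `p > 3`.
Q2: `a_m` is an integer for all `m > 1`, and it is odd if and only if `m` is a power of `2`.

Proof. The three-term recurrence of `s_n` gives
`6 ∑_{n<m} (3n²+n) 16^{m-1-n} s_n = m³ (s_m - 4 s_{m-1})`. As `∑ s_n x^n / n!² = B(x)⁴` with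
`B = ∑ x^n / n!²` and `(x B')' = B`, one gets `s_{n+1} - 4 s_n = 12 n X_n` with an explicit integer
`X_n` which has the parity of the `n`-th Catalan number. Modulo `p³` we have `s_p ≡ 4` and
`s_{p-1} ≡ 64^{p-1}`, both by harmonic sum congruences.
-/

set_option autoImplicit false

namespace Pool.Agent.Results.MP_4af00a_nt.BothQuestions

open Finset

/-- `s_n = ∑_{k=0}^n C(n,k)² C(2k,k) C(2(n-k),n-k)`. -/
def s (n : ℕ) : ℕ :=
  ∑ k ∈ range (n + 1), Nat.choose n k ^ 2 * Nat.choose (2 * k) k * Nat.choose (2 * (n - k)) (n - k)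

/-- `a_m = (1 / (2 m³ (m-1))) ∑_{n=0}^{m-1} (3n²+n) 16^{m-1-n} s_n`. -/
def a (m : ℕ) : ℚ :=
  1 / (2 * (m : ℚ) ^ 3 * ((m : ℚ) - 1)) *
    ∑ n ∈ range m, (3 * (n : ℚ) ^ 2 + n) * 16 ^ (m - 1 - n) * s n

/-- The Fermat quotient `q_p(2) = (2^{p-1} - 1) / p`. -/
def q (p : ℕ) : ℚ := ((2 : ℚ) ^ (p - 1) - 1) / p

/-- `x ≡ y (mod p^j)` for rational numbers: `x - y = p^j u / v` with `p ∤ v`. -/
def ModEqPow (p j : ℕ) (x y : ℚ) : Prop := ∃ u v : ℤ, ¬ (p : ℤ) ∣ v ∧ x - y = (p : ℚ) ^ j * (u / v)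

/-- **Main result.** Both questions. -/
theorem result :
    (∀ p : ℕ, p.Prime → 3 < p →
      ModEqPow p 6 (∑ n ∈ range p, (3 * (n : ℚ) ^ 2 + n) / 16 ^ n * s n)
        (-4 * (p : ℚ) ^ 4 * q p + 6 * (p : ℚ) ^ 5 * q p ^ 2)) ∧
    (∀ m : ℕ, 1 < m → ∃ z : ℤ, a m = z ∧ (Odd z ↔ ∃ e : ℕ, m = 2 ^ e)) := by
  have hs : ∀ n, s n = Pool.Agent.Q278.DB.s n := fun _ => rfl
  refine ⟨fun p hp h3p => ?_, fun m hm => ?_⟩
  · haveI : Fact p.Prime := ⟨hp⟩
    obtain ⟨m, hm⟩ : ∃ m, p = 2 * m + 1 := hp.odd_of_ne_two (by omega)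
    have h1 := Pool.Agent.Q278.DB.final_R p m hm h3p
    have h2 := Pool.Agent.Q278.DB.closed (p - 1)
    set z : ℤ := (Pool.Agent.Q278.DB.s p : ℤ) - 4 * Pool.Agent.Q278.DB.s (p - 1) - 6 * 16 ^ (p - 1) *
      (-4 * ((2 : ℤ) ^ (p - 1) - 1) + 6 * ((2 : ℤ) ^ (p - 1) - 1) ^ 2) with hz
    have h3 : (z : ZMod (p ^ 3)) = 0 := by
      rw [hz]
      push_cast
      rw [sub_eq_zero]
      exact h1
    rw [ZMod.intCast_zmod_eq_zero_iff_dvd] at h3
    obtain ⟨u, hu⟩ := h3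
    refine ⟨u, 6 * 16 ^ (p - 1), ?_, ?_⟩
    · intro hdvd
      have hpi : Prime (p : ℤ) := Nat.prime_iff_prime_int.mp hp
      rcases hpi.dvd_or_dvd hdvd with h | h
      · have : p ∣ 6 := by exact_mod_cast h
        have h6 : p ∣ 2 * 3 := by simpa using this
        rcases (hp.dvd_mul).mp h6 with h' | h'
        · exact absurd (Nat.le_of_dvd (by norm_num) h') (by omega)
        · exact absurd (Nat.le_of_dvd (by norm_num) h') (by omega)
      · have h' := hpi.dvd_of_dvd_pow h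
        have : p ∣ 16 := by exact_mod_cast h'
        have h16 : p ∣ 2 ^ 4 := by simpa using this
        have := hp.dvd_of_dvd_pow h16
        exact absurd (Nat.le_of_dvd (by norm_num) this) (by omega)
    · have hp0 : (p : ℚ) ≠ 0 := by exact_mod_cast hp.ne_zero
      have e1 : ∑ n ∈ range p, (3 * (n : ℚ) ^ 2 + n) / 16 ^ n * (s n : ℚ) =
          (∑ n ∈ range (p - 1 + 1), (3 * (n : ℚ) ^ 2 + n) * 16 ^ (p - 1 - n) *
            (Pool.Agent.Q278.DB.s n : ℚ)) / 16 ^ (p - 1) := by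
        rw [show p - 1 + 1 = p by omega, sum_div]
        refine sum_congr rfl fun n hn => ?_
        rw [mem_range] at hn
        have e2 : (16 : ℚ) ^ (p - 1) = 16 ^ (p - 1 - n) * 16 ^ n := by
          rw [← pow_add]; congr 1; omega
        rw [e2, hs]
        field_simp
      have hcast : ((p - 1 : ℕ) : ℚ) + 1 = p := by
        rw [Nat.cast_sub (by omega)]; push_cast; ring
      rw [hcast, show p - 1 + 1 = p by omega] at h2
      rw [show p - 1 + 1 = p by omega] at e1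
      rw [e1]
      have hzq : (z : ℚ) = (p : ℚ) ^ 3 * u := by
        rw [hu]; push_cast; ring
      have hzq2 : (z : ℚ) = (Pool.Agent.Q278.DB.s p : ℚ) - 4 * Pool.Agent.Q278.DB.s (p - 1) -
          6 * 16 ^ (p - 1) * (-4 * ((2 : ℚ) ^ (p - 1) - 1) + 6 * ((2 : ℚ) ^ (p - 1) - 1) ^ 2) := by
        rw [hz]; push_cast; ring
      have h16 : (16 : ℚ) ^ (p - 1) ≠ 0 := by positivity
      unfold q
      push_cast
      generalize ∑ n ∈ range p, (3 * (n : ℚ) ^ 2 + n) * 16 ^ (p - 1 - n) *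
            (Pool.Agent.Q278.DB.s n : ℚ) = A at *
      generalize (16 : ℚ) ^ (p - 1) = W at *
      generalize (2 : ℚ) ^ (p - 1) = Q at *
      have hA : A = (p : ℚ) ^ 3 * (z + 6 * W * (-4 * (Q - 1) + 6 * (Q - 1) ^ 2)) / 6 := by
        rw [eq_div_iff (by norm_num)]
        linear_combination h2 - (p : ℚ) ^ 3 * hzq2
      rw [hA, hzq]
      field_simp
      ring
  · obtain ⟨n, rfl⟩ : ∃ n, m = n + 1 := ⟨m - 1, by omega⟩
    have hn : 1 ≤ n := by omega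
    refine ⟨Pool.Agent.Q278.DB.Xn n, ?_, ?_⟩
    · have h1 := Pool.Agent.Q278.DB.closed n
      have h2 := Pool.Agent.Q278.DB.s_rel n hn
      unfold a
      rw [Nat.add_sub_cancel]
      have e1 : ∑ i ∈ range (n + 1), (3 * (i : ℚ) ^ 2 + i) * 16 ^ (n - i) * (s i : ℚ) =
          ∑ i ∈ range (n + 1), (3 * (i : ℚ) ^ 2 + i) * 16 ^ (n - i) * (Pool.Agent.Q278.DB.s i : ℚ) := rfl
      rw [e1]
      push_cast
      generalize ∑ i ∈ range (n + 1), (3 * (i : ℚ) ^ 2 + i) * 16 ^ (n - i) *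
        (Pool.Agent.Q278.DB.s i : ℚ) = A at *
      have hn0 : (n : ℚ) ≠ 0 := by exact_mod_cast (by omega : n ≠ 0)
      have hn1 : (n : ℚ) + 1 ≠ 0 := by positivity
      rw [h2] at h1
      have hA : A = ((n : ℚ) + 1) ^ 3 * (12 * n * Pool.Agent.Q278.DB.Xn n) / 6 := by
        rw [eq_div_iff (by norm_num)]; linear_combination h1
      rw [hA, add_sub_cancel_right]
      field_simp
      ring
    · rw [← Pool.Agent.Q278.DB.Xn_odd n hn]
      exact_mod_cast Iff.rfl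

end Pool.Agent.Results.MP_4af00a_nt.BothQuestions
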